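import Pool.Agent.Q44.LossLog
import Pool.Agent.Q55.GcdGold

/-!
# The gcd recursion for Goldbach pairs: the loss at the integers given by continued fractions

`g_N` is the least `n ≥ 2` with `a_n = 0`, where `a_1 = N - 2` and `a_n = a_{n-1} - gcd(a_{n-1}, N - (-1) ^ n (N - n))`.
For almost every real number `α` and all integers `(u, v) ≠ (0, 0)` the integers `N = |u p + v q|` have a loss
`N - g_N > (log N) / 25`, unless they are prime or smaller than `3`, for all but finitely many convergents `p / q` of the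
continued fraction of `α`; in particular the denominators and the numerators. The same for the linear forms in the
denominators and the numerators of the simultaneous approximations of Dirichlet's quality of almost every point of
`ℝ ^ d`.
-/

set_option autoImplicit false

namespace Pool.Agent.Results.MP_b5e119_nt.GoodApproximations

open Pool.Agent.Q44.CF Pool.Agent.Q55.GcdWalk Pool.Agent.Q55.GcdGold

/-- `g` is the least zero `g ≥ 2` of the recursion for `N` -/
def LeastZero (N g : ℕ) : Prop :=
  ∃ a : ℕ → ℤ, a 1 = (N : ℤ) - 2 ∧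
    (∀ n : ℕ, 2 ≤ n → a n = a (n - 1) -
      ((Int.gcd (a (n - 1)) ((N : ℤ) - (-1) ^ n * ((N : ℤ) - n)) : ℕ) : ℤ)) ∧
    IsLeast {n : ℕ | 2 ≤ n ∧ a n = 0} g

/-- the integer `N`, if it is at least three and not prime, has a loss `N - g_N > (log N) / 25` -/
def LargeLoss (N : ℕ) : Prop :=
  3 ≤ N → ¬ N.Prime → ∀ g : ℕ, LeastZero N g → Real.log N / 25 < (N : ℝ) - g

/-- **Theorem.** The loss is larger than `(log N) / 25` for all composite `N` given by the approximations of Dirichlet's
quality of almost all real numbers and of almost all points of `ℝ ^ d`. -/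
theorem result : AtApproximationsOfLevel (3 / 2) LargeLoss := by
  classical
  obtain ⟨C, hC, h⟩ := gold_small
  obtain ⟨C', hC', hL'⟩ := loglog_le 2 (show (3 / 2 : ℝ) < (2 : ℕ) by norm_num)
  have h1 : LogFewU (3 / 2) (fun n => (fun D N : ℕ => 3 ≤ N ∧ ¬ N.Prime ∧ ∃ g, W1 N g ∧ N ≤ g + D)
      ⌊Real.log n / 25⌋₊ n) := by
    refine fewU_of_small (Bad := fun D N : ℕ => 3 ≤ N ∧ ¬ N.Prime ∧ ∃ g, W1 N g ∧ N ≤ g + D) (C := C * C') ?_ (by norm_num) ?_
    · rintro D D' n hD ⟨h1, h2, g, h3, h4⟩
      exact ⟨h1, h2, g, h3, h4.trans (by omega)⟩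
    · intro X D hX hD hDX F hF
      have hsub : F ⊆ SS X 0 D := by
        intro n hn
        obtain ⟨h1, h2, h3⟩ := hF n hn
        exact mem_SS.2 ⟨⟨h1, by omega⟩, h3⟩
      have h2 := h X 0 D hX (by omega) hDX
      have hL1 : 1 ≤ Real.log X := by
        have : (2 : ℝ) ≤ D := by exact_mod_cast hD
        linarith
      have hD0 : (0 : ℝ) < 2 * D := by
        have : (2 : ℝ) ≤ D := by exact_mod_cast hD
        linarith
      have h3 : Real.log (2 * D) ≤ Real.log (Real.log X) :=
        Real.log_le_log hD0 (by linarith)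
      have h4 : 0 ≤ Real.log (2 * D) := Real.log_nonneg (by
        have : (2 : ℝ) ≤ D := by exact_mod_cast hD
        linarith)
      have hX0 : (0 : ℝ) ≤ X := Nat.cast_nonneg X
      calc (F.card : ℝ) ≤ (SS X 0 D).card := Nat.cast_le.2 (Finset.card_le_card hsub)
        _ ≤ C * X * (Real.log (2 * D) / Real.log X) ^ 2 := h2
        _ ≤ C * X * (Real.log (Real.log X) / Real.log X) ^ 2 := by gcongr
        _ = C * X * (Real.log (Real.log X) ^ 2 / Real.log X ^ ((2 : ℕ) : ℝ)) := by
            rw [div_pow, Real.rpow_natCast]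
        _ ≤ C * X * (C' / Real.log X ^ (3 / 2 : ℝ)) :=
            mul_le_mul_of_nonneg_left (hL' _ hL1) (by positivity)
        _ = C * C' * X / Real.log X ^ (3 / 2 : ℝ) := by ring
  refine atLevel_of (by norm_num) h1 fun N hN => ?_
  unfold LargeLoss at hN
  push Not at hN
  obtain ⟨h3, hp, g, hg, hlt⟩ := hN
  refine ⟨h3, hp, g, hg, ?_⟩
  have h4 : N - g ≤ ⌊Real.log N / 25⌋₊ := by
    rw [Nat.le_floor_iff (by positivity)]
    rcases le_total g N with h5 | h5
    · rw [Nat.cast_sub h5]
      exact hlt
    · rw [Nat.sub_eq_zero_of_le h5]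
      have : 0 ≤ Real.log N := Real.log_natCast_nonneg N
      simp only [Nat.cast_zero]
      positivity
  omega

end Pool.Agent.Results.MP_b5e119_nt.GoodApproximations
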