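import Mathlib
import Pool.Agent.Q55.GcdGold

/-!
# The gcd recursion for Goldbach pairs: typically `N - g_N` is at least of order `log² N`

For composite `N` the loss `N - g_N` exceeds `D` with at most `O(D X / log² X)` exceptions in every
interval `(Y, Y + X]`; in particular it is at least `c log² X` for all but `ε X` of the integers of
every interval of length `X`.
-/

set_option autoImplicit false

namespace Pool.Agent.Results.MP_b5e119_nt.LossLogSquared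

open Finset Pool.Agent.Q55.GcdWalk Pool.Agent.Q55.GcdGold

open Classical in
theorem result :
    (∃ C : ℝ, 0 < C ∧ ∀ X Y D : ℕ, 2 ≤ X → 1 ≤ D →
      (((Finset.Ioc Y (Y + X)).filter (fun N : ℕ => 3 ≤ N ∧ ¬ N.Prime ∧ ∃ (g : ℕ) (a : ℕ → ℤ),
        a 1 = (N : ℤ) - 2 ∧
        (∀ n : ℕ, 2 ≤ n → a n = a (n - 1) -
          ((Int.gcd (a (n - 1)) ((N : ℤ) - (-1) ^ n * ((N : ℤ) - n)) : ℕ) : ℤ)) ∧
        IsLeast {n : ℕ | 2 ≤ n ∧ a n = 0} g ∧ N ≤ g + D)).card : ℝ) ≤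
        C * D * (X / Real.log X ^ 2)) ∧
    (∀ ε : ℝ, 0 < ε → ∃ c : ℝ, 0 < c ∧ ∃ X₀ : ℕ, ∀ X Y : ℕ, X₀ ≤ X →
      (((Finset.Ioc Y (Y + X)).filter (fun N : ℕ => 3 ≤ N ∧ ∃ (g : ℕ) (a : ℕ → ℤ),
        a 1 = (N : ℤ) - 2 ∧
        (∀ n : ℕ, 2 ≤ n → a n = a (n - 1) -
          ((Int.gcd (a (n - 1)) ((N : ℤ) - (-1) ^ n * ((N : ℤ) - n)) : ℕ) : ℤ)) ∧
        IsLeast {n : ℕ | 2 ≤ n ∧ a n = 0} g ∧
        (N : ℝ) - g ≤ c * Real.log X ^ 2)).card : ℝ) ≤ ε * X) := by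
  constructor
  · obtain ⟨C, hC, h⟩ := gold_all
    refine ⟨C, by linarith, fun X Y D hX hD => le_trans ?_ (h X Y D hX hD)⟩
    rw [Nat.cast_le]
    apply Finset.card_le_card
    intro N hN
    rw [Finset.mem_filter, Finset.mem_Ioc] at hN
    obtain ⟨h1, h2, h3, g, a, h4, h5, h6, h7⟩ := hN
    exact mem_SS.2 ⟨h1, h2, h3, g, ⟨a, h4, h5, h6⟩, h7⟩
  · intro ε hε
    obtain ⟨c, hc, X₀, h⟩ := gold_typical ε hε
    refine ⟨c, hc, X₀, fun X Y hX => le_trans ?_ (h X Y hX)⟩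
    rw [Nat.cast_le]
    apply Finset.card_le_card
    intro N hN
    rw [Finset.mem_filter] at hN ⊢
    obtain ⟨h1, h2, g, a, h4, h5, h6, h7⟩ := hN
    exact ⟨h1, h2, g, ⟨a, h4, h5, h6⟩, h7⟩

end Pool.Agent.Results.MP_b5e119_nt.LossLogSquared
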