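import Pool.Agent.Q44.LossLog
import Pool.Agent.Q55.GcdGold

/-!
# The gcd recursion for Goldbach pairs: the size of the loss at most convergents of almost every real number

`g_N` is the least `n ≥ 2` with `a_n = 0`, where `a_1 = N - 2` and `a_n = a_{n-1} - gcd(a_{n-1}, N - (-1) ^ n (N - n))`.
Let `0 < δ ≤ 1`. For almost every real number `α`, all integers `(u, v) ≠ (0, 0)`, all `ε > 0` and all large `K` the
integers `N = |u p + v q|` have a loss `N - g_N > (log N) ^ (2 - δ)` for all convergents `p / q` of the continued fraction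
of `α` with `q < 2 ^ K`, with at most `K ^ (1 - δ + ε)` exceptions. The same for the linear forms in the denominators and
the numerators of the simultaneous approximations of Dirichlet's quality of almost every point of `ℝ ^ d`, for most
dyadic ranges of the denominators.
-/

set_option autoImplicit false

namespace Pool.Agent.Results.MP_b5e119_nt.MostApproximations

open Pool.Agent.Q44.CF Pool.Agent.Q55.GcdWalk Pool.Agent.Q55.GcdGold

/-- `g` is the least zero `g ≥ 2` of the recursion for `N` -/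
def LeastZero (N g : ℕ) : Prop :=
  ∃ a : ℕ → ℤ, a 1 = (N : ℤ) - 2 ∧
    (∀ n : ℕ, 2 ≤ n → a n = a (n - 1) -
      ((Int.gcd (a (n - 1)) ((N : ℤ) - (-1) ^ n * ((N : ℤ) - n)) : ℕ) : ℤ)) ∧
    IsLeast {n : ℕ | 2 ≤ n ∧ a n = 0} g

/-- the integer `N`, if it is at least three, has a loss `N - g_N > (log N) ^ t` -/
def LossAbove (t : ℝ) (N : ℕ) : Prop :=
  3 ≤ N → ∀ g : ℕ, LeastZero N g → Real.log N ^ t < (N : ℝ) - g

/-- **Theorem.** For `0 < δ ≤ 1` the loss is larger than `(log N) ^ (2 - δ)` for most of the integers `N` given by the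
approximations of Dirichlet's quality of almost all real numbers and of almost all points of `ℝ ^ d`. -/
theorem result : ∀ δ : ℝ, 0 < δ → δ ≤ 1 → AtMostApproximations δ (LossAbove (2 - δ)) := by
  classical
  intro δ hδ hδ1
  obtain ⟨C, hC, h⟩ := gold_all
  obtain ⟨C', hC', X₀, h'⟩ := primes_le
  have h1 : LogFewU (((2 : ℕ) : ℝ) - (2 - δ) * 1) (fun n =>
      (fun D N : ℕ => 3 ≤ N ∧ ¬ N.Prime ∧ ∃ g, W1 N g ∧ N ≤ g + D) ⌊Real.log n ^ (2 - δ)⌋₊ n) := by
    refine fewU_of_bad (Bad := fun D N : ℕ => 3 ≤ N ∧ ¬ N.Prime ∧ ∃ g, W1 N g ∧ N ≤ g + D)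
      (C := C) ?_ zero_le_one ?_ (by linarith)
    · rintro D D' n hD ⟨h1, h2, g, h3, h4⟩
      exact ⟨h1, h2, g, h3, h4.trans (by omega)⟩
    · intro X D hX hD F hF
      have hsub : F ⊆ SS X 0 D := by
        intro n hn
        obtain ⟨h1, h2, h3⟩ := hF n hn
        exact mem_SS.2 ⟨⟨h1, by omega⟩, h3⟩
      rw [Real.rpow_one, Real.rpow_natCast]
      exact (Nat.cast_le.2 (Finset.card_le_card hsub)).trans (h X 0 D hX hD)
  have h2 : LogFewU 1 (fun n => n.Prime) := by
    obtain ⟨A, hA⟩ : ∃ A : ℝ, A = max (Real.log X₀) 1 := ⟨_, rfl⟩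
    have hA1 : 1 ≤ A := by rw [hA]; exact le_max_right _ _
    refine ⟨C' + A, fun X hX F hF => ?_⟩
    have hL := log2_le hX
    have hL0 : 0 < Real.log X := lt_of_lt_of_le (Real.log_pos (by norm_num)) hL
    have hX0 : (0 : ℝ) < X := by exact_mod_cast (by omega : 0 < X)
    rw [Real.rpow_one]
    rcases lt_or_ge X X₀ with hlt | hge
    · have h1 : (F.card : ℝ) ≤ X := by
        have h2 : F ⊆ Finset.Icc 1 X := fun n hn => Finset.mem_Icc.2 ⟨(hF n hn).1, (hF n hn).2.1⟩
        have h3 := Finset.card_le_card h2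
        rw [Nat.card_Icc] at h3
        have h4 : F.card ≤ X := by omega
        exact_mod_cast h4
      have h2 : Real.log X ≤ A := by
        rw [hA]
        exact (Real.log_le_log hX0 (by exact_mod_cast hlt.le)).trans (le_max_left _ _)
      rw [le_div_iff₀ hL0]
      calc (F.card : ℝ) * Real.log X ≤ X * A := mul_le_mul h1 h2 hL0.le hX0.le
        _ ≤ (C' + A) * X := by nlinarith
    · have hsub : F ⊆ (Finset.Ioc 0 (0 + X)).filter (fun N => N.Prime) := by
        intro n hn
        obtain ⟨h1, h2, h3⟩ := hF n hn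
        exact Finset.mem_filter.2 ⟨Finset.mem_Ioc.2 ⟨h1, by omega⟩, h3⟩
      refine (Nat.cast_le.2 (Finset.card_le_card hsub)).trans ((h' X 0 hge).trans ?_)
      rw [mul_div_assoc]
      exact mul_le_mul_of_nonneg_right (by linarith) (by positivity)
  have h3 : LogFewU δ (fun n => (3 ≤ n ∧ ¬ n.Prime ∧ ∃ g, W1 n g ∧ n ≤ g + ⌊Real.log n ^ (2 - δ)⌋₊) ∨ n.Prime) := by
    refine LogFewU.or ?_ h2 hδ1
    have e : ((2 : ℕ) : ℝ) - (2 - δ) * 1 = δ := by push_cast; ring
    rw [e] at h1
    exact h1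
  refine atMost_of hδ.le hδ1 h3 fun N hN => ?_
  unfold LossAbove at hN
  push Not at hN
  obtain ⟨h3, g, hg, hlt⟩ := hN
  by_cases hp : N.Prime
  · exact Or.inr hp
  refine Or.inl ⟨h3, hp, g, hg, ?_⟩
  have h4 : N - g ≤ ⌊Real.log N ^ (2 - δ)⌋₊ := by
    rw [Nat.le_floor_iff (Real.rpow_nonneg (Real.log_natCast_nonneg N) _)]
    rcases le_total g N with h5 | h5
    · rw [Nat.cast_sub h5]
      exact hlt
    · rw [Nat.sub_eq_zero_of_le h5, Nat.cast_zero]
      exact Real.rpow_nonneg (Real.log_natCast_nonneg N) _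
  omega

end Pool.Agent.Results.MP_b5e119_nt.MostApproximations
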