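import Mathlib
import Pool.Agent.Q55.GcdGold

/-!
# The gcd recursion for Goldbach pairs: composite `N` with a small loss are rare

For `1 ≤ D ≤ (log X) / 24` at most `C X (log (2 D) / log X)²` composite `N` of an interval
`(Y, Y + X]` have `N - g_N ≤ D`: in every residue class modulo `lcm (1, …, D + 1)` all such `N`
have the same loss.
-/

set_option autoImplicit false

namespace Pool.Agent.Results.MP_b5e119_nt.SmallLossesRare

open Finset Pool.Agent.Q55.GcdWalk Pool.Agent.Q55.GcdGold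

open Classical in
theorem result :
    ∃ C : ℝ, 0 < C ∧ ∀ X Y D : ℕ, 2 ≤ X → 1 ≤ D → (D : ℝ) ≤ Real.log X / 24 →
      (((Finset.Ioc Y (Y + X)).filter (fun N : ℕ => 3 ≤ N ∧ ¬ N.Prime ∧ ∃ (g : ℕ) (a : ℕ → ℤ),
        a 1 = (N : ℤ) - 2 ∧
        (∀ n : ℕ, 2 ≤ n → a n = a (n - 1) -
          ((Int.gcd (a (n - 1)) ((N : ℤ) - (-1) ^ n * ((N : ℤ) - n)) : ℕ) : ℤ)) ∧
        IsLeast {n : ℕ | 2 ≤ n ∧ a n = 0} g ∧ N ≤ g + D)).card : ℝ) ≤
        C * X * (Real.log (2 * D) / Real.log X) ^ 2 := by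
  obtain ⟨C, hC, h⟩ := gold_small
  refine ⟨C, by linarith, fun X Y D hX hD hDX => le_trans ?_ (h X Y D hX hD hDX)⟩
  rw [Nat.cast_le]
  apply Finset.card_le_card
  intro N hN
  rw [Finset.mem_filter, Finset.mem_Ioc] at hN
  obtain ⟨h1, h2, h3, g, a, h4, h5, h6, h7⟩ := hN
  exact mem_SS.2 ⟨h1, h2, h3, g, ⟨a, h4, h5, h6⟩, h7⟩

end Pool.Agent.Results.MP_b5e119_nt.SmallLossesRare
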